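import Mathlib

set_option autoImplicit false

namespace Pool.Agent.Results.MP_e482b1_nt.TwinFactorialFails

open Finset

/-- The product `∏_{i<k} (x - a i)`. -/
def diffProd (a : ℕ → ℤ) (k : ℕ) (x : ℤ) : ℤ := ∏ i ∈ range k, (x - a i)

/-- `a 0, …, a n` is an initial segment (with `n + 1` terms) of a `p`-ordering of `X`: every
`a k` lies in `X` and minimises the power of `p` dividing `∏_{i<k} (x - a i)` over `x ∈ X`
(the power of `p` dividing `0` being infinite). -/
def IsPOrdering (X : Set ℤ) (p n : ℕ) (a : ℕ → ℤ) : Prop :=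
  ∀ k ≤ n, a k ∈ X ∧ ∀ x ∈ X,
    emultiplicity (p : ℤ) (diffProd a k (a k)) ≤ emultiplicity (p : ℤ) (diffProd a k x)

/-- `F` is the Bhargava factorial `n!_X`: `F` is a nonzero natural number and for every prime `p`
the power of `p` in `F` is the one dividing `∏_{i<n} (a n - a i)` for a `p`-ordering `a` of `X`. -/
def IsFactorial (X : Set ℤ) (n F : ℕ) : Prop :=
  F ≠ 0 ∧ ∀ p : ℕ, p.Prime → ∃ a : ℕ → ℤ, IsPOrdering X p n a ∧
    emultiplicity (p : ℤ) (diffProd a n (a n)) = (padicValNat p F : ℕ∞)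

/-- The set of primes, as a set of integers. -/
def primeSet : Set ℤ := {x | ∃ p : ℕ, p.Prime ∧ x = p}

/-- The set of twin primes: the primes `x` such that `x - 2` or `x + 2` is a prime. -/
def twinPrimeSet : Set ℤ := {x | x ∈ primeSet ∧ (x - 2 ∈ primeSet ∨ x + 2 ∈ primeSet)}

/-- Both factorials `n!_{P₂}` and `n!_P` are defined, and `n!_{P₂} ≠ 2 * w₂(n) * n!_P`. -/
def IdentityFails (n : ℕ) : Prop :=
  (∃ F, IsFactorial twinPrimeSet n F) ∧ (∃ G, IsFactorial primeSet n G) ∧
    ∀ F G, IsFactorial twinPrimeSet n F → IsFactorial primeSet n G →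
      F ≠ 2 * 2 ^ padicValNat 2 n * G

theorem diffProd_succ (a : ℕ → ℤ) (k : ℕ) (x : ℤ) :
    diffProd a (k + 1) x = diffProd a k x * (x - a k) := by
  simp [diffProd, prod_range_succ]

theorem mono_step {X : Set ℤ} {p n : ℕ} {a : ℕ → ℤ} (h : IsPOrdering X p n a) {k : ℕ}
    (hk : k + 1 ≤ n) :
    emultiplicity (p : ℤ) (diffProd a k (a k)) ≤
      emultiplicity (p : ℤ) (diffProd a (k + 1) (a (k + 1))) := by
  refine ((h k (by omega)).2 (a (k + 1)) (h (k + 1) hk).1).trans ?_
  apply emultiplicity_le_emultiplicity_of_dvd_right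
  rw [diffProd_succ]
  exact dvd_mul_right _ _

theorem mono {X : Set ℤ} {p n : ℕ} {a : ℕ → ℤ} (h : IsPOrdering X p n a) {k : ℕ} (hk : k ≤ n) :
    emultiplicity (p : ℤ) (diffProd a k (a k)) ≤
      emultiplicity (p : ℤ) (diffProd a n (a n)) := by
  induction n with
  | zero =>
    have : k = 0 := by omega
    subst this; exact le_rfl
  | succ m ih =>
    rcases Nat.lt_or_ge k (m + 1) with h1 | h1
    · have h' : IsPOrdering X p m a := fun j hj => h j (by omega)
      exact (ih h' (by omega)).trans (mono_step h le_rfl)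
    · have : k = m + 1 := by omega
      subst this; exact le_rfl

theorem emult_zero_iff {p : ℕ} {m : ℤ} :
    emultiplicity (p : ℤ) m = 0 ↔ ¬ (p : ℤ) ∣ m := emultiplicity_eq_zero

/-- If no element of `X` is divisible by the prime `q`, then `q` divides `(q-1)!_X`. -/
theorem lemA {X : Set ℤ} {q : ℕ} (hq : q.Prime) (hX : ∀ x ∈ X, ¬ (q : ℤ) ∣ x) {a : ℕ → ℤ}
    (h : IsPOrdering X q (q - 1) a) :
    emultiplicity (q : ℤ) (diffProd a (q - 1) (a (q - 1))) ≠ 0 := by
  intro h0
  have hpos := hq.pos
  have hk : ∀ k ≤ q - 1, ∀ i < k, ¬ (q : ℤ) ∣ a k - a i := by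
    intro k hk i hi hdvd
    have h1 := mono h hk
    rw [h0] at h1
    have h2 : emultiplicity (q : ℤ) (diffProd a k (a k)) = 0 := le_antisymm h1 (by simp)
    rw [emult_zero_iff] at h2
    apply h2
    unfold diffProd
    exact hdvd.trans (dvd_prod_of_mem (fun i => a k - a i) (mem_range.mpr hi))
  have : NeZero q := ⟨hq.ne_zero⟩
  have : Fact q.Prime := ⟨hq⟩
  let f : Fin q → ZMod q := fun k => ((a k : ℤ) : ZMod q)
  have hinj : Function.Injective f := by
    intro i j hij
    by_contra hne
    have key : ∀ i j : Fin q, i < j → f i = f j → False := by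
      intro i j hlt he
      have h3 : (q : ℤ) ∣ a j - a i := by
        rw [← ZMod.intCast_zmod_eq_zero_iff_dvd, Int.cast_sub]
        simp only [f] at he
        rw [he, sub_self]
      exact hk j (by have := j.2; omega) i hlt h3
    rcases lt_or_gt_of_ne hne with h1 | h1
    · exact key i j h1 hij
    · exact key j i h1 hij.symm
  have hsurj : Function.Surjective f := by
    have : Function.Bijective f := by
      rw [Fintype.bijective_iff_injective_and_card]
      exact ⟨hinj, by simp [ZMod.card]⟩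
    exact this.2
  obtain ⟨k, hk0⟩ := hsurj 0
  have h4 : (q : ℤ) ∣ a k := by
    rw [← ZMod.intCast_zmod_eq_zero_iff_dvd]
    exact hk0
  exact hX _ (h k (by have := k.2; omega)).1 h4

/-- If `X` has more than `n` elements pairwise incongruent mod `p`, then `p ∤ n!_X`. -/
theorem lemB {X : Set ℤ} {p n : ℕ} (hp : p.Prime) (s : Finset ℤ) (hs : ∀ x ∈ s, x ∈ X)
    (hcard : n < s.card)
    (hinc : ∀ x ∈ s, ∀ y ∈ s, (p : ℤ) ∣ x - y → x = y) {a : ℕ → ℤ}
    (h : IsPOrdering X p n a) :
    emultiplicity (p : ℤ) (diffProd a n (a n)) = 0 := by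
  classical
  have hinj : Set.InjOn (fun x : ℤ => (x : ZMod p)) (s : Set ℤ) := by
    intro x hx y hy hxy
    apply hinc x hx y hy
    rw [← ZMod.intCast_zmod_eq_zero_iff_dvd, Int.cast_sub]
    simp only at hxy
    rw [hxy, sub_self]
  have hc1 : (s.image (fun x : ℤ => (x : ZMod p))).card = s.card := card_image_of_injOn hinj
  have hc2 : ((range n).image (fun i => ((a i : ℤ) : ZMod p))).card ≤ n := by
    refine card_image_le.trans ?_
    simp
  obtain ⟨c, hc, hc'⟩ : ∃ c ∈ s.image (fun x : ℤ => (x : ZMod p)),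
      c ∉ (range n).image (fun i => ((a i : ℤ) : ZMod p)) := by
    by_contra hcon
    push Not at hcon
    have := card_le_card (show s.image (fun x : ℤ => (x : ZMod p)) ⊆
      (range n).image (fun i => ((a i : ℤ) : ZMod p)) from hcon)
    omega
  obtain ⟨x, hx, rfl⟩ := mem_image.mp hc
  have h1 : ∀ i < n, ¬ (p : ℤ) ∣ x - a i := by
    intro i hi hd
    apply hc'
    rw [mem_image]
    refine ⟨i, mem_range.mpr hi, ?_⟩
    rw [← ZMod.intCast_zmod_eq_zero_iff_dvd, Int.cast_sub, sub_eq_zero] at hd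
    exact hd.symm
  have h2 : emultiplicity (p : ℤ) (diffProd a n x) = 0 := by
    rw [emult_zero_iff]
    unfold diffProd
    rw [Prime.dvd_finsetProd_iff (Nat.prime_iff_prime_int.mp hp)]
    rintro ⟨i, hi, hd⟩
    exact h1 i (mem_range.mp hi) hd
  have h3 := (h n le_rfl).2 x (hs x hx)
  rw [h2] at h3
  exact le_antisymm h3 (by simp)

/-- Existence of `p`-orderings. -/
theorem exists_pOrdering {X : Set ℤ} (hX : X.Nonempty) (p n : ℕ) :
    ∃ a : ℕ → ℤ, IsPOrdering X p n a := by
  -- one step
  have step : ∀ (k : ℕ) (a : ℕ → ℤ), ∃ x ∈ X, ∀ y ∈ X,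
      emultiplicity (p : ℤ) (diffProd a k x) ≤ emultiplicity (p : ℤ) (diffProd a k y) := by
    intro k a
    obtain ⟨x, hx, hmin⟩ := WellFounded.has_min
      (InvImage.wf (fun x : ℤ => emultiplicity (p : ℤ) (diffProd a k x))
        (wellFounded_lt (α := ℕ∞))) X hX
    refine ⟨x, hx, fun y hy => ?_⟩
    have := hmin y hy
    simp only [InvImage] at this
    exact not_lt.mp this
  induction n with
  | zero =>
    obtain ⟨x, hx, hmin⟩ := step 0 (fun _ => 0)
    refine ⟨fun _ => x, ?_⟩
    intro k hk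
    have : k = 0 := by omega
    subst this
    refine ⟨hx, fun y _ => ?_⟩
    simp [diffProd]
  | succ m ih =>
    obtain ⟨a, ha⟩ := ih
    obtain ⟨x, hx, hmin⟩ := step (m + 1) a
    have hagree : ∀ k ≤ m + 1, ∀ y,
        diffProd (Function.update a (m + 1) x) k y = diffProd a k y := by
      intro k hk y
      unfold diffProd
      apply prod_congr rfl
      intro i hi
      have : i ≠ m + 1 := by have := mem_range.mp hi; omega
      rw [Function.update_of_ne this]
    refine ⟨Function.update a (m + 1) x, ?_⟩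
    intro k hk
    rcases Nat.lt_or_ge k (m + 1) with h1 | h1
    · have hne : k ≠ m + 1 := by omega
      have := ha k (by omega)
      rw [Function.update_of_ne hne]
      refine ⟨this.1, fun y hy => ?_⟩
      rw [hagree k hk, hagree k hk]
      exact this.2 y hy
    · have : k = m + 1 := by omega
      subst this
      rw [Function.update_self]
      refine ⟨hx, fun y hy => ?_⟩
      rw [hagree _ le_rfl, hagree _ le_rfl]
      exact hmin y hy

/-- If `X` has more than `n` elements then `n!_X` is defined. -/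
theorem exists_factorial {X : Set ℤ} {n : ℕ} (hX : (n : ℕ∞) < X.encard) :
    ∃ F, IsFactorial X n F := by
  classical
  obtain ⟨s, hsX, hcard⟩ : ∃ s : Finset ℤ, (s : Set ℤ) ⊆ X ∧ s.card = n + 1 := by
    have h1 : ((n + 1 : ℕ) : ℕ∞) ≤ X.encard := by
      push_cast
      exact Order.add_one_le_of_lt hX
    obtain ⟨t, htX, ht⟩ := Set.exists_subset_encard_eq h1
    have hfin : t.Finite := Set.finite_of_encard_eq_coe ht
    refine ⟨hfin.toFinset, by simpa using htX, ?_⟩
    rw [hfin.encard_eq_coe_toFinset_card] at ht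
    exact_mod_cast ht
  have hne : X.Nonempty := by
    have : s.Nonempty := by rw [← card_pos]; omega
    obtain ⟨x, hx⟩ := this
    exact ⟨x, hsX hx⟩
  choose a ha using fun p => exists_pOrdering hne p n
  -- finiteness of the exponents
  have hfin : ∀ p : ℕ, p.Prime → emultiplicity (p : ℤ) (diffProd (a p) n (a p n)) ≠ ⊤ := by
    intro p hp htop
    -- there is an x in s different from all a p i, i<n
    obtain ⟨x, hx, hx'⟩ : ∃ x ∈ s, x ∉ (range n).image (a p) := by
      by_contra hcon
      push Not at hcon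
      have h1 := card_le_card (show s ⊆ (range n).image (a p) from hcon)
      have h2 : ((range n).image (a p)).card ≤ n := card_image_le.trans (by simp)
      omega
    have h3 := (ha p n le_rfl).2 x (hsX hx)
    rw [htop, top_le_iff, emultiplicity_eq_top] at h3
    apply h3
    have hprod : diffProd (a p) n x ≠ 0 := by
      unfold diffProd
      rw [prod_ne_zero_iff]
      intro i hi h0
      apply hx'
      rw [mem_image]
      exact ⟨i, hi, by linarith⟩
    apply Int.finiteMultiplicity_iff.mpr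
    refine ⟨?_, hprod⟩
    simpa using hp.ne_one
  -- bound beyond which exponents vanish
  let B : ℕ := ∑ x ∈ s, ∑ y ∈ s, (x - y).natAbs
  have hB : ∀ x ∈ s, ∀ y ∈ s, (x - y).natAbs ≤ B := by
    intro x hx y hy
    calc (x - y).natAbs ≤ ∑ y ∈ s, (x - y).natAbs :=
          single_le_sum (f := fun y => (x - y).natAbs) (fun _ _ => Nat.zero_le _) hy
      _ ≤ B := single_le_sum (f := fun x => ∑ y ∈ s, (x - y).natAbs)
          (fun _ _ => Nat.zero_le _) hx
  have hzero : ∀ p : ℕ, p.Prime → B < p →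
      emultiplicity (p : ℤ) (diffProd (a p) n (a p n)) = 0 := by
    intro p hp hBp
    refine lemB hp s (fun x hx => hsX hx) (by omega) ?_ (ha p)
    intro x hx y hy hd
    by_contra hxy
    have h1 : (x - y).natAbs ≠ 0 := by
      rw [Int.natAbs_ne_zero]; exact sub_ne_zero.mpr hxy
    have h2 : p ∣ (x - y).natAbs := Int.natCast_dvd.mp hd
    have h3 := Nat.le_of_dvd (Nat.pos_of_ne_zero h1) h2
    have h4 := hB x hx y hy
    omega
  let e : ℕ → ℕ := fun p =>
    if p.Prime then (emultiplicity (p : ℤ) (diffProd (a p) n (a p n))).toNat else 0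
  let f : ℕ →₀ ℕ := Finsupp.onFinset (range (B + 1)) e (by
    intro p hp
    simp only [e] at hp
    split_ifs at hp with hpp
    · rw [mem_range]
      by_contra hcon
      apply hp
      rw [hzero p hpp (by omega)]
      rfl
    · exact absurd rfl hp)
  have hf : ∀ p, f p = e p := fun p => rfl
  have hsupp : ∀ p ∈ f.support, p.Prime := by
    intro p hp
    rw [Finsupp.mem_support_iff, hf] at hp
    by_contra hcon
    apply hp
    simp [e, hcon]
  have hfac := Nat.prod_pow_factorization_eq_self hsupp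
  refine ⟨f.prod (fun x1 x2 => x1 ^ x2), ?_, ?_⟩
  · rw [Finsupp.prod, prod_ne_zero_iff]
    intro p hp
    exact pow_ne_zero _ (hsupp p hp).ne_zero
  · intro p hp
    refine ⟨a p, ha p, ?_⟩
    rw [← Nat.factorization_def _ hp, hfac, hf]
    simp only [e, hp, if_true]
    exact (ENat.natCast_toNat (hfin p hp)).symm

/-- Every residue class mod a prime `q` contains a prime. -/
theorem exists_prime_class (q : ℕ) (hq : q.Prime) (c : ZMod q) :
    ∃ p : ℕ, p.Prime ∧ (p : ZMod q) = c := by
  have : Fact q.Prime := ⟨hq⟩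
  have : NeZero q := ⟨hq.ne_zero⟩
  by_cases hc : c = 0
  · exact ⟨q, hq, by simp [hc]⟩
  · have hu : IsUnit c := isUnit_iff_ne_zero.mpr hc
    obtain ⟨p, _, hp, hpc⟩ := Nat.forall_exists_prime_gt_and_eq_mod hu 0
    exact ⟨p, hp, hpc⟩

theorem primeSet_infinite : primeSet.Infinite := by
  have h := Nat.infinite_setOfPred_prime
  have : primeSet = (fun p : ℕ => (p : ℤ)) '' {p | p.Prime} := by
    ext x
    simp only [primeSet, Set.mem_ofPred_eq, Set.mem_image]
    constructor
    · rintro ⟨p, hp, rfl⟩; exact ⟨p, hp, rfl⟩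
    · rintro ⟨p, hp, rfl⟩; exact ⟨p, hp, rfl⟩
  rw [this]
  exact h.image (by intro x _ y _ hxy; simpa using hxy)

/-- The prime `q` does not divide `(q-1)!_P`. -/
theorem lemP {q : ℕ} (hq : q.Prime) {a : ℕ → ℤ} (h : IsPOrdering primeSet q (q - 1) a) :
    emultiplicity (q : ℤ) (diffProd a (q - 1) (a (q - 1))) = 0 := by
  classical
  have : Fact q.Prime := ⟨hq⟩
  have : NeZero q := ⟨hq.ne_zero⟩
  choose g hg hgc using exists_prime_class q hq
  let s : Finset ℤ := (univ : Finset (ZMod q)).image (fun c => (g c : ℤ))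
  have hginj : Function.Injective (fun c : ZMod q => (g c : ℤ)) := by
    intro c d hcd
    have h1 : (g c : ℤ) = (g d : ℤ) := hcd
    have h2 : g c = g d := by exact_mod_cast h1
    rw [← hgc c, ← hgc d, h2]
  have hcard : s.card = q := by
    rw [card_image_of_injective _ hginj, card_univ, ZMod.card]
  refine lemB hq s ?_ (by have := hq.pos; omega) ?_ h
  · intro x hx
    obtain ⟨c, _, rfl⟩ := mem_image.mp hx
    exact ⟨g c, hg c, rfl⟩
  · intro x hx y hy hd
    obtain ⟨c, _, rfl⟩ := mem_image.mp hx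
    obtain ⟨d, _, rfl⟩ := mem_image.mp hy
    rw [← ZMod.intCast_zmod_eq_zero_iff_dvd] at hd
    push_cast at hd
    rw [hgc, hgc, sub_eq_zero] at hd
    rw [hd]

/-- The general failure: for an odd prime `q` that is not a twin prime. -/
theorem fails_of_isolated {q : ℕ} (hq : q.Prime) (hq2 : q ≠ 2) (hqT : (q : ℤ) ∉ twinPrimeSet)
    (hcard : (q : ℕ∞) ≤ twinPrimeSet.encard) : IdentityFails (q - 1) := by
  have hpos := hq.pos
  have hlt : ((q - 1 : ℕ) : ℕ∞) < (q : ℕ∞) := by
    exact_mod_cast (by omega : q - 1 < q)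
  refine ⟨exists_factorial (lt_of_lt_of_le hlt hcard), exists_factorial ?_, ?_⟩
  · rw [primeSet_infinite.encard_eq]
    exact ENat.natCast_lt_top _
  · intro F G hF hG hFG
    obtain ⟨hF0, hF⟩ := hF
    obtain ⟨hG0, hG⟩ := hG
    obtain ⟨a, ha, haF⟩ := hF q hq
    obtain ⟨b, hb, hbG⟩ := hG q hq
    have h1 := lemA hq (X := twinPrimeSet) (by
      rintro x ⟨⟨p, hp, rfl⟩, hx⟩ hd
      have h2 : q ∣ p := by exact_mod_cast hd
      have h3 : q = p := (Nat.prime_dvd_prime_iff_eq hq hp).mp h2
      subst h3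
      exact hqT ⟨⟨q, hp, rfl⟩, hx⟩) ha
    have h2 := lemP hq hb
    rw [haF] at h1
    rw [hbG] at h2
    have h1' : padicValNat q F ≠ 0 := by exact_mod_cast h1
    have h2' : padicValNat q G = 0 := by exact_mod_cast h2
    have h3 : q ∣ F := by
      by_contra hcon
      exact h1' (padicValNat.eq_zero_of_not_dvd hcon)
    have h4 : ¬ q ∣ G := by
      intro hd
      have : Fact q.Prime := ⟨hq⟩
      have := one_le_padicValNat_of_dvd hG0 hd
      omega
    rw [hFG] at h3
    have hq2' : ¬ q ∣ 2 := fun h => hq2 ((Nat.prime_dvd_prime_iff_eq hq Nat.prime_two).mp h)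
    rcases (Nat.Prime.dvd_mul hq).mp h3 with h5 | h5
    · rcases (Nat.Prime.dvd_mul hq).mp h5 with h6 | h6
      · exact hq2' h6
      · exact hq2' (hq.dvd_of_dvd_pow h6)
    · exact h4 h5

theorem mem_twin {p : ℕ} (hp : p.Prime) (h : (p + 2).Prime ∨ (2 ≤ p ∧ (p - 2).Prime)) :
    (p : ℤ) ∈ twinPrimeSet := by
  refine ⟨⟨p, hp, rfl⟩, ?_⟩
  rcases h with h | ⟨h2, h⟩
  · right
    exact ⟨p + 2, h, by push_cast; ring⟩
  · left
    exact ⟨p - 2, h, by push_cast [Nat.cast_sub h2]; ring⟩

theorem twin_card : (23 : ℕ∞) ≤ twinPrimeSet.encard := by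
  let s : Finset ℕ := {3, 5, 7, 11, 13, 17, 19, 29, 31, 41, 43, 59, 61, 71, 73, 101, 103, 107, 109,
    137, 139, 149, 151}
  have hs : s.card = 23 := by decide
  let t : Finset ℤ := s.image (fun x : ℕ => (x : ℤ))
  have ht : t.card = 23 := by
    rw [card_image_of_injective _ (by intro x y h; simpa using h), hs]
  have hsub : (t : Set ℤ) ⊆ twinPrimeSet := by
    intro x hx
    obtain ⟨p, hp, rfl⟩ := mem_image.mp (Finset.mem_coe.mp hx)
    have : p.Prime ∧ ((p + 2).Prime ∨ (2 ≤ p ∧ (p - 2).Prime)) := by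
      simp only [s, mem_insert, mem_singleton] at hp
      rcases hp with rfl | rfl | rfl | rfl | rfl | rfl | rfl | rfl | rfl | rfl | rfl | rfl | rfl |
        rfl | rfl | rfl | rfl | rfl | rfl | rfl | rfl | rfl | rfl <;> norm_num
    exact mem_twin this.1 this.2
  have h1 := Set.encard_le_encard hsub
  rw [Set.encard_coe_eq_coe_finsetCard, ht] at h1
  exact_mod_cast h1

theorem not_twin_23 : ((23 : ℕ) : ℤ) ∉ twinPrimeSet := by
  rintro ⟨-, h | h⟩
  · obtain ⟨p, hp, he⟩ := h
    have : p = 21 := by push_cast at he; omega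
    subst this
    norm_num at hp
  · obtain ⟨p, hp, he⟩ := h
    have : p = 25 := by push_cast at he; omega
    subst this
    norm_num at hp

/-- The identity `n!_{P₂} / n!_P = 2 w₂(n)` fails at `n = 22` (both factorials being defined). -/
theorem result : IdentityFails 22 := by
  have h := fails_of_isolated (q := 23) (by norm_num) (by norm_num) not_twin_23
    (by exact_mod_cast twin_card)
  simpa using h

end Pool.Agent.Results.MP_e482b1_nt.TwinFactorialFails
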